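import Mathlib

namespace Pool.Agent.H.MP_9cb16a_an

open Filter Topology

lemma three (Y0 Yp Ym z0 zp zm : ℂ) (s : ℝ) (hs0 : 0 ≤ s) (hs : s ≤ 1 / 2)
    (h0 : Y0 * z0 = 1) (hp : Yp * zp = 1) (hm : Ym * zm = 1)
    (he : ‖Yp + Ym - 2 * Y0‖ ≤ s ^ 2) (he' : ‖zp + zm - 2 * z0‖ ≤ s ^ 2) (hz : ‖z0‖ ≤ 2) :
    ‖zm - z0‖ ≤ 4 * s := by
  set e := Yp + Ym - 2 * Y0 with hedef
  set e' := zp + zm - 2 * z0 with hedef'
  have key : (zp - z0) * (zm - z0) * (2 + e * z0) = -(e' * z0 + e * z0 ^ 2 * (z0 + e')) := by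
    rw [hedef, hedef']
    linear_combination (z0 * zm) * hp + (z0 * zp) * hm - 2 * zp * zm * h0
  have hs2 : s ^ 2 ≤ 1 / 4 := by nlinarith
  have n1 : ‖e' * z0‖ ≤ s ^ 2 * 2 := by
    rw [norm_mul]; exact mul_le_mul he' hz (norm_nonneg _) (by positivity)
  have n2 : ‖z0 + e'‖ ≤ 9 / 4 := (norm_add_le _ _).trans (by linarith)
  have n3 : ‖z0 ^ 2‖ ≤ 4 := by
    rw [norm_pow]; nlinarith [norm_nonneg z0]
  have n4 : ‖e * z0 ^ 2 * (z0 + e')‖ ≤ s ^ 2 * 4 * (9 / 4) := by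
    rw [norm_mul, norm_mul]
    exact mul_le_mul (mul_le_mul he n3 (norm_nonneg _) (by positivity)) n2 (norm_nonneg _)
      (by positivity)
  have n5 : ‖e * z0‖ ≤ s ^ 2 * 2 := by
    rw [norm_mul]; exact mul_le_mul he hz (norm_nonneg _) (by positivity)
  have n6 : 3 / 2 ≤ ‖2 + e * z0‖ := by
    have := norm_sub_le (2 + e * z0) (e * z0)
    simp only [add_sub_cancel_right, Complex.norm_ofNat] at this
    linarith
  have n7 : ‖zp - z0‖ * ‖zm - z0‖ * ‖2 + e * z0‖ ≤ 11 * s ^ 2 := by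
    rw [← norm_mul, ← norm_mul, key, norm_neg]
    exact (norm_add_le _ _).trans (by linarith)
  have n8 : ‖zp - z0‖ * ‖zm - z0‖ ≤ 8 * s ^ 2 := by
    have : 0 ≤ ‖zp - z0‖ * ‖zm - z0‖ := by positivity
    nlinarith
  have n9 : ‖zm - z0‖ ≤ s ^ 2 + ‖zp - z0‖ := by
    have : zm - z0 = e' - (zp - z0) := by rw [hedef']; ring
    rw [this]
    exact (norm_sub_le _ _).trans (by linarith)
  by_contra hc
  push Not at hc
  have h1 : 7 / 2 * s ≤ ‖zp - z0‖ := by nlinarith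
  have h2 : 7 / 2 * s * (4 * s) ≤ ‖zp - z0‖ * ‖zm - z0‖ :=
    mul_le_mul h1 hc.le (by positivity) (norm_nonneg _)
  have h3 : s = 0 := by nlinarith
  subst h3
  have h4 : ‖zp - z0‖ * ‖zm - z0‖ ≤ 0 := by simpa using n8
  have h5 : ‖zm - z0‖ ≤ ‖zp - z0‖ := by simpa using n9
  have h6 : 0 < ‖zm - z0‖ := by simpa using hc
  nlinarith

lemma last (l y0 yp ym z0 zp zm : ℂ) (h d R : ℝ) (hh : 0 ≤ h) (hd : 0 ≤ d)
    (e0 : l * z0 + h * (y0 * z0) = h + d) (ep : l * zp + h * (yp * zp) = h)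
    (em : l * zm + h * (ym * zm) = h)
    (b1 : ‖y0‖ ≤ R) (b2 : ‖yp‖ ≤ R) (b3 : ‖ym‖ ≤ R) (b4 : ‖z0‖ ≤ R) (b5 : ‖zp‖ ≤ R)
    (b6 : ‖zm‖ ≤ R) (hz : 1 / 2 ≤ ‖z0‖) (he : ‖zp + zm - 2 * z0‖ ≤ 1 / 2) :
    d ≤ h * (1 + 5 * R ^ 2) := by
  have hR : 0 ≤ R := (norm_nonneg _).trans b1
  have m : ∀ a b : ℂ, ‖a‖ ≤ R → ‖b‖ ≤ R → ‖(h : ℂ) * (a * b)‖ ≤ h * R ^ 2 := by
    intro a b ha hb
    rw [norm_mul, norm_mul, Complex.norm_real, Real.norm_of_nonneg hh, sq]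
    exact mul_le_mul_of_nonneg_left (mul_le_mul ha hb (norm_nonneg _) hR) hh
  have m0 := m _ _ b1 b4
  have mp := m _ _ b2 b5
  have mm := m _ _ b3 b6
  have nh : ‖(h : ℂ)‖ = h := by rw [Complex.norm_real, Real.norm_of_nonneg hh]
  have nd : ‖(d : ℂ)‖ = d := by rw [Complex.norm_real, Real.norm_of_nonneg hd]
  have k1 : ‖l‖ * ‖z0‖ ≤ h + d + h * R ^ 2 := by
    have : l * z0 = h + d - h * (y0 * z0) := by linear_combination e0
    rw [← norm_mul, this]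
    refine (norm_sub_le _ _).trans ?_
    have := norm_add_le (h : ℂ) d
    linarith
  have k2 : 2 * d ≤ ‖l‖ * ‖zp + zm - 2 * z0‖ + 4 * (h * R ^ 2) := by
    have : (2 : ℂ) * d = (h * (y0 * z0) + h * (y0 * z0)) - (h * (yp * zp) + h * (ym * zm))
        - l * (zp + zm - 2 * z0) := by linear_combination ep + em - 2 * e0
    have h2 : ‖(2 : ℂ) * d‖ = 2 * d := by rw [norm_mul, nd]; simp
    rw [← h2, this, ← norm_mul]
    refine (norm_sub_le _ _).trans ?_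
    have a1 := norm_sub_le ((h : ℂ) * (y0 * z0) + h * (y0 * z0)) (h * (yp * zp) + h * (ym * zm))
    have a2 := norm_add_le ((h : ℂ) * (y0 * z0)) (h * (y0 * z0))
    have a3 := norm_add_le ((h : ℂ) * (yp * zp)) (h * (ym * zm))
    linarith
  have k3 : ‖l‖ * ‖zp + zm - 2 * z0‖ ≤ ‖l‖ * ‖z0‖ :=
    mul_le_mul_of_nonneg_left (he.trans hz) (norm_nonneg _)
  nlinarith

abbrev T := ℂ × ℂ × ℂ

noncomputable def val (v : ℕ → T) (n : ℕ) : T :=
  (8 * 2 ^ n * (v n).1,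
    2 * (8 * 2 ^ n * (v n).1) - (8 * 2 ^ (n + 1) * (v (n + 1)).1 + (v n).2.2 / 4 ^ n)
      + (v n).2.1 / 4 ^ n,
    8 * 2 ^ (n + 1) * (v (n + 1)).1 + (v n).2.2 / 4 ^ n)

noncomputable def coord (y : ℕ → T) (n : ℕ) : T :=
  ((y n).1 / (8 * 2 ^ n), 4 ^ n * ((y n).2.1 + (y n).2.2 - 2 * (y n).1),
    4 ^ n * ((y n).2.2 - (y (n + 1)).1))

lemma val_coord (y : ℕ → T) : val (coord y) = y := by
  funext n
  have h2 : (2 : ℂ) ^ n ≠ 0 := pow_ne_zero _ (by norm_num)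
  have h4 : (4 : ℂ) ^ n ≠ 0 := pow_ne_zero _ (by norm_num)
  simp only [val, coord]
  refine Prod.ext ?_ (Prod.ext ?_ ?_) <;> simp only <;> field_simp <;> ring

lemma coord_val (v : ℕ → T) : coord (val v) = v := by
  funext n
  have h2 : (2 : ℂ) ^ n ≠ 0 := pow_ne_zero _ (by norm_num)
  have h4 : (4 : ℂ) ^ n ≠ 0 := pow_ne_zero _ (by norm_num)
  simp only [val, coord]
  refine Prod.ext ?_ (Prod.ext ?_ ?_) <;> simp only <;> field_simp <;> ring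

lemma val_inj {v w : ℕ → T} (h : val v = val w) : v = w := by
  rw [← coord_val v, h, coord_val]

lemma val_add (v w : ℕ → T) : val (v + w) = val v + val w := by
  funext n
  simp only [val, Pi.add_apply]
  refine Prod.ext ?_ (Prod.ext ?_ ?_) <;> simp <;> ring

lemma val_smul (c : ℂ) (v : ℕ → T) : val (c • v) = c • val v := by
  funext n
  simp only [val, Pi.smul_apply]
  refine Prod.ext ?_ (Prod.ext ?_ ?_) <;> simp <;> ring

lemma val_zero : val 0 = 0 := by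
  funext n
  simp [val]

lemma c1 (t : T) : ‖t.1‖ ≤ ‖t‖ := norm_fst_le t
lemma c2 (t : T) : ‖t.2.1‖ ≤ ‖t‖ := (norm_fst_le _).trans (norm_snd_le t)
lemma c3 (t : T) : ‖t.2.2‖ ≤ ‖t‖ := (norm_snd_le _).trans (norm_snd_le t)

lemma nT (t : T) (K : ℝ) (h1 : ‖t.1‖ ≤ K) (h2 : ‖t.2.1‖ ≤ K) (h3 : ‖t.2.2‖ ≤ K) : ‖t‖ ≤ K := by
  rw [Prod.norm_def, Prod.norm_def]
  exact max_le h1 (max_le h2 h3)

lemma val_le (v : ℕ → T) (K : ℝ) (h : ∀ n, ‖v n‖ ≤ K) (n : ℕ) : ‖val v n‖ ≤ 40 * 2 ^ n * K := by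
  have hK : 0 ≤ K := (norm_nonneg _).trans (h 0)
  have p2 : (1 : ℝ) ≤ 2 ^ n := one_le_pow₀ (by norm_num)
  have p4 : (1 : ℝ) ≤ 4 ^ n := one_le_pow₀ (by norm_num)
  have a1 : ‖8 * 2 ^ n * (v n).1‖ ≤ 8 * 2 ^ n * K := by
    rw [norm_mul, norm_mul, norm_pow, Complex.norm_ofNat, Complex.norm_ofNat]
    exact mul_le_mul_of_nonneg_left ((c1 _).trans (h n)) (by positivity)
  have a2 : ‖8 * 2 ^ (n + 1) * (v (n + 1)).1‖ ≤ 16 * 2 ^ n * K := by
    rw [norm_mul, norm_mul, norm_pow, Complex.norm_ofNat, Complex.norm_ofNat]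
    have := mul_le_mul_of_nonneg_left ((c1 _).trans (h (n + 1)))
      (by positivity : (0 : ℝ) ≤ 8 * 2 ^ (n + 1))
    refine this.trans (le_of_eq ?_)
    ring
  have a3 : ∀ x : ℂ, ‖x‖ ≤ K → ‖x / 4 ^ n‖ ≤ 2 ^ n * K := by
    intro x hx
    rw [norm_div, norm_pow, Complex.norm_ofNat]
    refine (div_le_self (norm_nonneg _) p4).trans (hx.trans ?_)
    nlinarith
  have a4 := a3 _ ((c2 _).trans (h n))
  have a5 := a3 _ ((c3 _).trans (h n))
  have a6 : ‖8 * 2 ^ (n + 1) * (v (n + 1)).1 + (v n).2.2 / 4 ^ n‖ ≤ 17 * 2 ^ n * K :=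
    (norm_add_le _ _).trans (by linarith)
  have hp : 0 ≤ 2 ^ n * K := by positivity
  refine nT _ _ ?_ ?_ ?_ <;> simp only [val]
  · linarith
  · refine (norm_add_le _ _).trans ?_
    have := norm_sub_le (2 * (8 * 2 ^ n * (v n).1))
      (8 * 2 ^ (n + 1) * (v (n + 1)).1 + (v n).2.2 / 4 ^ n)
    rw [norm_mul 2, Complex.norm_ofNat] at this
    linarith
  · linarith

lemma coord_le (y : ℕ → T) (K : ℝ) (h : ∀ n, ‖y n‖ ≤ K / 8 ^ n) (n : ℕ) :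
    ‖coord y n‖ ≤ 4 * K / 2 ^ n := by
  have hK : 0 ≤ K := by simpa using (norm_nonneg _).trans (h 0)
  have p2 : (1 : ℝ) ≤ 2 ^ n := one_le_pow₀ (by norm_num)
  have p4 : (1 : ℝ) ≤ 4 ^ n := one_le_pow₀ (by norm_num)
  have e8 : (8 : ℝ) ^ n = 4 ^ n * 2 ^ n := by rw [← mul_pow]; norm_num
  have hq : 0 ≤ K / 8 ^ n := by positivity
  have e : 4 * K / 2 ^ n = 4 ^ n * (4 * (K / 8 ^ n)) := by rw [e8]; field_simp
  have a1 := (c1 _).trans (h n)
  have a2 := (c2 _).trans (h n)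
  have a3 := (c3 _).trans (h n)
  have a4 : ‖(y (n + 1)).1‖ ≤ K / 8 ^ n := by
    refine ((c1 _).trans (h (n + 1))).trans ?_
    apply div_le_div_of_nonneg_left hK (by positivity)
    rw [pow_succ]; nlinarith
  rw [e]
  refine nT _ _ ?_ ?_ ?_ <;> simp only [coord]
  · rw [norm_div, norm_mul, norm_pow, Complex.norm_ofNat, Complex.norm_ofNat]
    refine (div_le_self (norm_nonneg _) (by linarith)).trans (a1.trans ?_)
    nlinarith
  · rw [norm_mul, norm_pow, Complex.norm_ofNat]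
    refine mul_le_mul_of_nonneg_left ((norm_sub_le _ _).trans ?_) (by positivity)
    have := norm_add_le (y n).2.1 (y n).2.2
    rw [norm_mul, Complex.norm_ofNat]
    linarith
  · rw [norm_mul, norm_pow, Complex.norm_ofNat]
    refine mul_le_mul_of_nonneg_left ((norm_sub_le _ _).trans ?_) (by positivity)
    linarith

lemma hs (K : ℝ) : HasSum (fun n : ℕ => K / 2 ^ n) (2 * K) := by
  have := hasSum_geometric_two.mul_left K
  rw [mul_comm K 2] at this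
  have e : (fun n : ℕ => K / 2 ^ n) = fun i : ℕ => K * (1 / 2) ^ i := by
    funext n
    rw [one_div, inv_pow, div_eq_mul_inv]
  rw [e]; exact this

lemma mem1 (v : ℕ → T) (K : ℝ) (h : ∀ n, ‖v n‖ ≤ K / 2 ^ n) : Memℓp v 1 := by
  apply memℓp_gen
  simp only [ENNReal.toReal_one, Real.rpow_one]
  exact Summable.of_nonneg_of_le (fun _ => norm_nonneg _) h (hs K).summable

lemma norm1 (v : lp (fun _ : ℕ => T) 1) (K : ℝ) (h : ∀ n, ‖v n‖ ≤ K / 2 ^ n) : ‖v‖ ≤ 2 * K := by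
  have hK : 0 ≤ K := by simpa using (norm_nonneg _).trans (h 0)
  apply lp.norm_le_of_tsum_le (by simp) (by positivity)
  simp only [ENNReal.toReal_one, Real.rpow_one]
  rw [← (hs K).tsum_eq]
  exact Summable.tsum_le_tsum h
    (Summable.of_nonneg_of_le (fun _ => norm_nonneg _) h (hs K).summable) (hs K).summable

end Pool.Agent.H.MP_9cb16a_an
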