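import Mathlib
import Pool.Agent.H.MP_9cb16a_an.A

namespace Pool.Agent.H.MP_9cb16a_an

open Filter Topology

def B : Type := lp (fun _ : ℕ => T) 1

noncomputable instance : NormedAddCommGroup B :=
  inferInstanceAs (NormedAddCommGroup (lp (fun _ : ℕ => T) 1))
noncomputable instance : NormedSpace ℂ B := inferInstanceAs (NormedSpace ℂ (lp (fun _ : ℕ => T) 1))
instance : CompleteSpace B := inferInstanceAs (CompleteSpace (lp (fun _ : ℕ => T) 1))

def co (v : B) : ℕ → T := fun n => (show lp (fun _ : ℕ => T) 1 from v) n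

noncomputable def V (v : B) : ℕ → T := val (co v)

lemma co_le (v : B) (n : ℕ) : ‖co v n‖ ≤ ‖v‖ :=
  lp.norm_apply_le_norm (by simp) (show lp (fun _ : ℕ => T) 1 from v) n

lemma co_add (v w : B) : co (v + w) = co v + co w := rfl
lemma co_sub (v w : B) : co (v - w) = co v - co w := rfl
lemma co_smul (c : ℂ) (v : B) : co (c • v) = c • co v := rfl
lemma co_zero : co 0 = 0 := rfl

lemma V_inj {v w : B} (h : V v = V w) : v = w :=
  lp.ext (E := fun _ : ℕ => T) (p := 1) (val_inj h)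

lemma V_add (v w : B) : V (v + w) = V v + V w := val_add _ _
lemma V_smul (c : ℂ) (v : B) : V (c • v) = c • V v := val_smul _ _
lemma V_zero : V 0 = 0 := val_zero

lemma V_le (v : B) (n : ℕ) : ‖V v n‖ ≤ 40 * 2 ^ n * ‖v‖ := val_le _ _ (co_le v) n

noncomputable def mk (y : ℕ → T) (K : ℝ) (h : ∀ n, ‖y n‖ ≤ K / 8 ^ n) : B :=
  show lp (fun _ : ℕ => T) 1 from ⟨coord y, mem1 _ (4 * K) (coord_le y K h)⟩

lemma V_mk (y : ℕ → T) (K : ℝ) (h : ∀ n, ‖y n‖ ≤ K / 8 ^ n) : V (mk y K h) = y := val_coord y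

lemma mk_le (y : ℕ → T) (K : ℝ) (h : ∀ n, ‖y n‖ ≤ K / 8 ^ n) : ‖mk y K h‖ ≤ 8 * K := by
  have := norm1 (show lp (fun _ : ℕ => T) 1 from mk y K h) (4 * K) (coord_le y K h)
  exact this.trans (by linarith)

noncomputable def hh (n : ℕ) : ℝ := 1 / (10 ^ 5 * 64 ^ n)

lemma hh_pos (n : ℕ) : 0 < hh n := by unfold hh; positivity

lemma mul_bd (v w : B) (n : ℕ) :
    ‖(hh n : ℂ) • (V v n * V w n)‖ ≤ ‖v‖ * ‖w‖ / 8 / 8 ^ n := by
  rw [norm_smul, Complex.norm_real, Real.norm_of_nonneg (hh_pos n).le]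
  have h1 : ‖V v n * V w n‖ ≤ (40 * 2 ^ n * ‖v‖) * (40 * 2 ^ n * ‖w‖) :=
    (norm_mul_le _ _).trans (mul_le_mul (V_le v n) (V_le w n) (norm_nonneg _) (by positivity))
  refine (mul_le_mul_of_nonneg_left h1 (hh_pos n).le).trans ?_
  have p2 : (1 : ℝ) ≤ 2 ^ n := one_le_pow₀ (by norm_num)
  have e8 : (8 : ℝ) ^ n = (2 ^ n) ^ 3 := by rw [← pow_mul, mul_comm, pow_mul]; norm_num
  have e64 : (64 : ℝ) ^ n = (2 ^ n) ^ 6 := by rw [← pow_mul, mul_comm, pow_mul]; norm_num
  unfold hh
  rw [e8, e64]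
  generalize (2 : ℝ) ^ n = x at p2
  have hp : 0 ≤ ‖v‖ * ‖w‖ := by positivity
  have : 1 / (10 ^ 5 * x ^ 6) * (40 * x * ‖v‖ * (40 * x * ‖w‖))
      = ‖v‖ * ‖w‖ / 8 / x ^ 3 * (8 * 1600 / 10 ^ 5 / x) := by field_simp; ring
  rw [this]
  apply mul_le_of_le_one_right (by positivity)
  rw [div_le_one (by positivity)]
  linarith

noncomputable instance : Mul B :=
  ⟨fun v w => mk (fun n => (hh n : ℂ) • (V v n * V w n)) (‖v‖ * ‖w‖ / 8) (mul_bd v w)⟩

lemma V_mul (v w : B) (n : ℕ) : V (v * w) n = (hh n : ℂ) • (V v n * V w n) :=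
  congrFun (V_mk _ _ (mul_bd v w)) n

lemma nmul (v w : B) : ‖v * w‖ ≤ ‖v‖ * ‖w‖ :=
  (mk_le _ _ (mul_bd v w)).trans (by linarith)

noncomputable instance : NonUnitalNormedCommRing B where
  __ := (inferInstance : NormedAddCommGroup B)
  mul := (· * ·)
  left_distrib a b c := V_inj (by
    funext n; simp only [V_mul, V_add, Pi.add_apply, mul_add, smul_add])
  right_distrib a b c := V_inj (by
    funext n; simp only [V_mul, V_add, Pi.add_apply, add_mul, smul_add])
  zero_mul a := V_inj (by funext n; simp [V_mul, V_zero])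
  mul_zero a := V_inj (by funext n; simp [V_mul, V_zero])
  mul_assoc a b c := V_inj (by
    funext n; simp only [V_mul, smul_mul_assoc, mul_smul_comm, mul_assoc])
  mul_comm a b := V_inj (by funext n; simp only [V_mul, mul_comm])
  norm_mul_le := nmul

instance : IsScalarTower ℂ B B where
  smul_assoc c a b := V_inj (by
    funext n
    simp only [smul_eq_mul, V_mul, V_smul, Pi.smul_apply, smul_mul_assoc]
    rw [smul_comm])

instance : SMulCommClass ℂ B B where
  smul_comm c a b := V_inj (by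
    funext n
    simp only [smul_eq_mul, V_mul, V_smul, Pi.smul_apply, mul_smul_comm]
    rw [smul_comm])

lemma single_bd (k : ℕ) (t : T) (n : ℕ) :
    ‖(Pi.single k t : ℕ → T) n‖ ≤ ‖t‖ * 8 ^ k / 8 ^ n := by
  by_cases h : n = k
  · subst h
    rw [Pi.single_eq_same, mul_div_assoc, div_self (by positivity), mul_one]
  · rw [Pi.single_eq_of_ne h, norm_zero]; positivity

noncomputable def P (k : ℕ) (t : T) : B := mk (Pi.single k t) (‖t‖ * 8 ^ k) (single_bd k t)

lemma V_P (k : ℕ) (t : T) : V (P k t) = Pi.single k t := V_mk _ _ _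

lemma P_le (k : ℕ) (t : T) : ‖P k t‖ ≤ 8 * (‖t‖ * 8 ^ k) := mk_le _ _ _

lemma P_idem (k : ℕ) (t : T) (ht : t * t = t) :
    IsIdempotentElem (P k (((hh k : ℂ))⁻¹ • t)) := by
  have h0 : (hh k : ℂ) ≠ 0 := by exact_mod_cast (hh_pos k).ne'
  apply V_inj
  funext n
  rw [V_mul, V_P]
  by_cases h : n = k
  · subst h
    rw [Pi.single_eq_same, smul_mul_assoc, mul_smul_comm, ht, smul_smul, mul_inv_cancel₀ h0,
      one_smul]
  · simp [Pi.single_eq_of_ne h]

lemma P_span (k : ℕ) (t : T) : P k t ∈ Submodule.span ℂ {e : B | IsIdempotentElem e} := by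
  have h0 : (hh k : ℂ) ≠ 0 := by exact_mod_cast (hh_pos k).ne'
  have e : P k t = (t.1 * hh k) • P k (((hh k : ℂ))⁻¹ • ((1, 0, 0) : T))
      + (t.2.1 * hh k) • P k (((hh k : ℂ))⁻¹ • ((0, 1, 0) : T))
      + (t.2.2 * hh k) • P k (((hh k : ℂ))⁻¹ • ((0, 0, 1) : T)) := by
    apply V_inj
    funext n
    simp only [V_add, V_smul, V_P, Pi.add_apply, Pi.smul_apply]
    by_cases h : n = k
    · subst h
      simp only [Pi.single_eq_same]
      refine Prod.ext ?_ (Prod.ext ?_ ?_) <;> simp <;> field_simp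
    · simp [Pi.single_eq_of_ne h]
  rw [e]
  refine add_mem (add_mem ?_ ?_) ?_ <;>
    exact Submodule.smul_mem _ _ (Submodule.subset_span (P_idem _ _ (by simp)))

lemma V_sum (s : Finset ℕ) (f : ℕ → B) : V (∑ k ∈ s, f k) = ∑ k ∈ s, V (f k) := by
  classical
  induction s using Finset.induction_on with
  | empty => simp [V_zero]
  | insert a s ha ih => rw [Finset.sum_insert ha, Finset.sum_insert ha, V_add, ih]

lemma fin_span (v : B) (N : ℕ) (h : ∀ n, N ≤ n → V v n = 0) :
    v ∈ Submodule.span ℂ {e : B | IsIdempotentElem e} := by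
  have e : v = ∑ k ∈ Finset.range N, P k (V v k) := by
    apply V_inj
    rw [V_sum]
    funext n
    simp only [V_P, Finset.sum_apply]
    by_cases hn : n < N
    · rw [Finset.sum_eq_single n]
      · simp
      · intro b _ hb; exact Pi.single_eq_of_ne hb.symm _
      · intro hb; exact absurd (Finset.mem_range.2 hn) hb
    · rw [h n (not_lt.1 hn)]
      symm
      apply Finset.sum_eq_zero
      intro b hb
      have : n ≠ b := by
        have := Finset.mem_range.1 hb
        omega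
      exact Pi.single_eq_of_ne this _
  rw [e]
  exact Submodule.sum_mem _ fun k _ => P_span _ _

lemma dense_B (v : B) :
    v ∈ closure (Submodule.span ℂ {e : B | IsIdempotentElem e} : Set B) := by
  have h := lp.hasSum_single (p := 1) (E := fun _ : ℕ => T) (by simp)
    (show lp (fun _ : ℕ => T) 1 from v)
  have h' : HasSum (fun i : ℕ => (show B from lp.single (E := fun _ : ℕ => T) 1 i (co v i))) v := h
  have hc : IsClosed (Submodule.span ℂ {e : B | IsIdempotentElem e}).topologicalClosure.carrier :=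
    Submodule.isClosed_topologicalClosure _
  refine hc.mem_of_tendsto h' (Eventually.of_forall fun s => ?_)
  refine Submodule.sum_mem (Submodule.span ℂ {e : B | IsIdempotentElem e}).topologicalClosure
    fun i _ => Submodule.le_topologicalClosure _ (fin_span _ (i + 1) fun n hn => ?_)
  have z : ∀ m, i + 1 ≤ m → co (show B from lp.single (E := fun _ : ℕ => T) 1 i (co v i)) m = 0 := by
    intro m hm
    exact lp.single_apply_ne (E := fun _ : ℕ => T) 1 i _ (by omega)
  simp only [V, val, z n hn, z (n + 1) (by omega)]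
  simp

lemma one_bd (n : ℕ) : ‖coord (fun _ => 1) n‖ ≤ 1 / 8 / 2 ^ n := by
  refine nT _ _ ?_ ?_ ?_ <;> simp only [coord]
  · simp [div_eq_mul_inv, mul_comm]
  · have : ((1 : T).2.1 + (1 : T).2.2 - 2 * (1 : T).1) = 0 := by simp; norm_num
    rw [this]; simp only [mul_zero, norm_zero]; positivity
  · simp only [Prod.snd_one, Prod.fst_one, sub_self, mul_zero, norm_zero]; positivity

noncomputable def a : B :=
  show lp (fun _ : ℕ => T) 1 from ⟨coord (fun _ => 1), mem1 _ (1 / 8) one_bd⟩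

lemma V_a : V a = fun _ => 1 := val_coord _

lemma a_le : ‖a‖ ≤ 1 / 4 :=
  (norm1 (show lp (fun _ : ℕ => T) 1 from a) (1 / 8) one_bd).trans (by norm_num)

lemma co_a (n : ℕ) : co a n = (1 / (8 * 2 ^ n), 0, 0) := by
  change coord (fun _ => 1) n = _
  simp [coord]; norm_num

lemma near (v : B) (hv : ‖v - a‖ ≤ 1 / 10 ^ 4) :
    ‖(V v 0).1 - 1‖ ≤ 1 / 10 ∧
    (∀ n, ‖(V v n).2.1 + (V v n).2.2 - 2 * (V v n).1‖ ≤ (1 / 100 / 2 ^ n) ^ 2) ∧
    (∀ n, ‖(V v n).2.2 - (V v (n + 1)).1‖ ≤ (1 / 100 / 2 ^ n) ^ 2) ∧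
    (∀ n, ‖V v n‖ ≤ 20 * 2 ^ n) := by
  have hc : ∀ n, ‖co v n - co a n‖ ≤ 1 / 10 ^ 4 := fun n => (co_le (v - a) n).trans hv
  have e4 : ∀ n : ℕ, (1 / 100 / 2 ^ n : ℝ) ^ 2 = 1 / 10 ^ 4 / 4 ^ n := by
    intro n
    rw [div_pow, ← pow_mul, mul_comm, pow_mul]; norm_num
  have dv : ∀ (n : ℕ) (x : ℂ), ‖x‖ ≤ 1 / 10 ^ 4 → ‖x / 4 ^ n‖ ≤ (1 / 100 / 2 ^ n) ^ 2 := by
    intro n x hx
    rw [e4, norm_div, norm_pow, Complex.norm_ofNat]
    exact div_le_div_of_nonneg_right hx (by positivity)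
  refine ⟨?_, fun n => ?_, fun n => ?_, fun n => ?_⟩
  · have h1 := (c1 _).trans (hc 0)
    rw [co_a] at h1
    have : (V v 0).1 - 1 = 8 * ((co v 0).1 - 1 / (8 * 2 ^ 0)) := by
      simp only [V, val]; ring
    rw [this, norm_mul, Complex.norm_ofNat]
    simp only [Prod.fst_sub] at h1
    linarith
  · have h1 := (c2 _).trans (hc n)
    rw [co_a] at h1
    simp only [Prod.snd_sub, Prod.fst_sub, sub_zero] at h1
    have : (V v n).2.1 + (V v n).2.2 - 2 * (V v n).1 = (co v n).2.1 / 4 ^ n := by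
      simp only [V, val]; ring
    rw [this]; exact dv n _ h1
  · have h1 := (c3 _).trans (hc n)
    rw [co_a] at h1
    simp only [Prod.snd_sub, sub_zero] at h1
    have : (V v n).2.2 - (V v (n + 1)).1 = (co v n).2.2 / 4 ^ n := by
      simp only [V, val]; ring
    rw [this]; exact dv n _ h1
  · refine (V_le v n).trans ?_
    have h1 : ‖v‖ ≤ 1 / 2 := by
      have := norm_le_norm_add_norm_sub' v a
      have := a_le
      linarith
    have : (0 : ℝ) < 2 ^ n := by positivity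
    nlinarith

lemma key (m : ℕ) (l : ℂ) (v w : B) (hv : ‖v - a‖ ≤ 1 / 10 ^ 4) (hw : ‖w - a‖ ≤ 1 / 10 ^ 4) :
    l • w + v * w ≠ a * a + P m (((1 / 16 ^ m : ℝ) : ℂ), 0, 0) := by
  intro h
  obtain ⟨-, v2, -, v4⟩ := near v hv
  obtain ⟨w1, w2, w3, w4⟩ := near w hw
  have E : ∀ n, l • V w n + (hh n : ℂ) • (V v n * V w n)
      = (hh n : ℂ) • (1 : T) + (Pi.single m ((((1 / 16 ^ m : ℝ) : ℂ), 0, 0) : T) : ℕ → T) n := by
    intro n
    have := congrFun (congrArg V h) n
    simpa only [V_add, V_smul, V_mul, V_P, V_a, Pi.add_apply, Pi.smul_apply, mul_one] using this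
  have sb : ∀ n : ℕ, (1 / 100 / 2 ^ n : ℝ) ≤ 1 / 100 := fun n =>
    div_le_self (by norm_num) (one_le_pow₀ (by norm_num))
  have sp : ∀ n : ℕ, (0 : ℝ) ≤ 1 / 100 / 2 ^ n := fun n => by positivity
  have ind : ∀ n, n ≤ m → ‖(V w n).1 - 1‖ ≤ 1 / 5 - 10 * (1 / 100 / 2 ^ n) := by
    intro n
    induction n with
    | zero => intro _; norm_num at w1 ⊢; exact w1
    | succ n ih =>
      intro hn
      have ih := ih (by omega)
      have h0 : (hh n : ℂ) ≠ 0 := by exact_mod_cast (hh_pos n).ne'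
      have En := E n
      rw [Pi.single_eq_of_ne (by omega : n ≠ m), add_zero] at En
      have E1 := congrArg (fun t : T => t.1) En
      have E2 := congrArg (fun t : T => t.2.1) En
      have E3 := congrArg (fun t : T => t.2.2) En
      simp only [Prod.fst_add, Prod.snd_add, Prod.smul_fst, Prod.smul_snd, Prod.fst_mul,
        Prod.snd_mul, Prod.fst_one, Prod.snd_one, smul_eq_mul, mul_one] at E1 E2 E3
      have hz : ‖(V w n).1‖ ≤ 2 := by
        have := norm_le_norm_add_norm_sub' (V w n).1 1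
        have := sp n
        rw [norm_one] at *
        linarith
      have t := three (l / hh n + (V v n).1) (l / hh n + (V v n).2.1) (l / hh n + (V v n).2.2)
        (V w n).1 (V w n).2.1 (V w n).2.2 (1 / 100 / 2 ^ n) (sp n) ((sb n).trans (by norm_num))
        (by field_simp; linear_combination E1) (by field_simp; linear_combination E2)
        (by field_simp; linear_combination E3)
        (by convert v2 n using 2; ring) (w2 n) hz
      have e : (V w (n + 1)).1 - 1 = ((V w n).1 - 1) + ((V w n).2.2 - (V w n).1)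
          - ((V w n).2.2 - (V w (n + 1)).1) := by ring
      rw [e]
      refine (norm_sub_le _ _).trans ?_
      have a1 := norm_add_le ((V w n).1 - 1) ((V w n).2.2 - (V w n).1)
      have a2 := w3 n
      have a3 : (1 / 100 / 2 ^ n : ℝ) ^ 2 ≤ 1 / 100 / 2 ^ n := by
        have := sb n
        have := sp n
        nlinarith
      have a4 : (1 / 100 / 2 ^ (n + 1) : ℝ) = (1 / 100 / 2 ^ n) / 2 := by
        rw [pow_succ]; field_simp
      rw [a4]
      linarith
  have En := E m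
  rw [Pi.single_eq_same] at En
  have E1 := congrArg (fun t : T => t.1) En
  have E2 := congrArg (fun t : T => t.2.1) En
  have E3 := congrArg (fun t : T => t.2.2) En
  simp only [Prod.fst_add, Prod.snd_add, Prod.smul_fst, Prod.smul_snd, Prod.fst_mul,
    Prod.snd_mul, Prod.fst_one, Prod.snd_one, smul_eq_mul, mul_one, add_zero] at E1 E2 E3
  have hz : 1 / 2 ≤ ‖(V w m).1‖ := by
    have h1 := ind m le_rfl
    have h2 := norm_sub_le (V w m).1 ((V w m).1 - 1)
    have := sp m
    simp only [sub_sub_cancel, norm_one] at h2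
    linarith
  have he : ‖(V w m).2.1 + (V w m).2.2 - 2 * (V w m).1‖ ≤ 1 / 2 := by
    refine (w2 m).trans ?_
    have := sb m
    have := sp m
    nlinarith
  have t := last l _ _ _ _ _ _ (hh m) (1 / 16 ^ m) (20 * 2 ^ m) (hh_pos m).le (by positivity)
    E1 E2 E3 ((c1 _).trans (v4 m)) ((c2 _).trans (v4 m)) ((c3 _).trans (v4 m))
    ((c1 _).trans (w4 m)) ((c2 _).trans (w4 m)) ((c3 _).trans (w4 m)) hz he
  have p2 : (1 : ℝ) ≤ 2 ^ m := one_le_pow₀ (by norm_num)
  have e16 : (16 : ℝ) ^ m = (2 ^ m) ^ 4 := by rw [← pow_mul, mul_comm, pow_mul]; norm_num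
  have e64 : (64 : ℝ) ^ m = (2 ^ m) ^ 6 := by rw [← pow_mul, mul_comm, pow_mul]; norm_num
  unfold hh at t
  rw [e16, e64] at t
  generalize (2 : ℝ) ^ m = x at p2 t
  rw [div_mul_eq_mul_div, one_mul, div_le_div_iff₀ (by positivity) (by positivity)] at t
  have x4 : 0 < x ^ 4 := by positivity
  have : 10 ^ 5 * x ^ 2 ≤ 1 + 5 * (20 * x) ^ 2 := by
    by_contra hc
    push Not at hc
    have := mul_lt_mul_of_pos_right hc x4
    nlinarith
  nlinarith

end Pool.Agent.H.MP_9cb16a_an
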